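import Pool.Agent.H29.T1.S2
import Pool.Agent.H5.AVS.RIP

/-!
# T1: INOK (from the completion to `R`)
-/

set_option autoImplicit false
set_option linter.unusedSectionVars false

namespace Pool.T1.INOK43

open Polynomial Matrix Pool.HYP Pool.TOW Pool.AVS Pool.AVS.RIP IsDedekindDomain

section Base

variable {R : Type} [CommRing R] [IsDedekindDomain R] {K : Type} [Field K] [Algebra R K]
  [IsFractionRing R K] {P : HeightOneSpectrum R} {ϖ : R} {L : Type} [Field L]
  {O' : ValuationSubring L} {ι : K →+* L}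

/-- The embedding of `R`. -/
noncomputable abbrev io (ι : K →+* L) (a : R) : L := ι (algebraMap R K a)

/-- The homomorphism to the valuation ring. -/
noncomputable def phi (h : CompP P ϖ L O' ι) : R →+* O' where
  toFun a := ⟨ι (algebraMap R K a), h.int a⟩
  map_one' := Subtype.ext (by simp)
  map_zero' := Subtype.ext (by simp)
  map_mul' p q := Subtype.ext (by simp)
  map_add' p q := Subtype.ext (by simp)

/-- The reduction. -/
noncomputable def res (h : CompP P ϖ L O' ι) : R →+* IsLocalRing.ResidueField O' :=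
  (IsLocalRing.residue O').comp (phi h)

theorem res_zero (h : CompP P ϖ L O' ι) (a : R) : res h a = 0 ↔ a ∈ P.asIdeal := by
  rw [← h.mem a]
  show IsLocalRing.residue O' (phi h a) = 0 ↔ _
  rw [IsLocalRing.residue_eq_zero_iff, mem_max h.loc]
  rfl

theorem pi_mem (h : CompP P ϖ L O' ι) : ϖ ∈ P.asIdeal := by
  rw [← h.mem, div_self h.loc.pi_ne]
  exact one_mem O'

/-- An element outside `P` is a unit of the completion. -/
theorem unit_of (h : CompP P ϖ L O' ι) {m : R} (hm : m ∉ P.asIdeal) :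
    ι (algebraMap R K m) ≠ 0 ∧ (ι (algebraMap R K m))⁻¹ ∈ O' := by
  have h0 : ι (algebraMap R K m) ≠ 0 := by
    intro e
    apply hm
    rw [← h.mem, e, zero_div]
    exact zero_mem O'
  refine ⟨h0, ?_⟩
  by_contra hn
  exact hm ((h.mem m).1 ((h.loc.unif _ (h.int m) h0).1 hn))

theorem sq_mem (h : CompP P ϖ L O' ι) {z : R} (hz : z ∈ P.asIdeal ^ 2) :
    ι (algebraMap R K z) / (ι (algebraMap R K ϖ)) ^ 2 ∈ O' := by
  rw [pow_two] at hz
  refine Submodule.mul_induction_on hz ?_ ?_
  · intro a ha b hb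
    have e : ι (algebraMap R K (a * b)) / (ι (algebraMap R K ϖ)) ^ 2 =
        (ι (algebraMap R K a) / ι (algebraMap R K ϖ)) *
          (ι (algebraMap R K b) / ι (algebraMap R K ϖ)) := by
      rw [map_mul, map_mul]
      have := h.loc.pi_ne
      field_simp
    rw [e]
    exact mul_mem ((h.mem a).2 ha) ((h.mem b).2 hb)
  · intro a b ha hb
    rw [map_add, map_add, add_div]
    exact add_mem ha hb

theorem pi_nsq (h : CompP P ϖ L O' ι) : ϖ ∉ P.asIdeal ^ 2 := by
  intro hz
  have h1 := sq_mem h hz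
  have h2 : (1 : R) ∈ P.asIdeal := by
    rw [← h.mem]
    have e : ι (algebraMap R K 1) / ι (algebraMap R K ϖ) =
        ι (algebraMap R K ϖ) / (ι (algebraMap R K ϖ)) ^ 2 := by
      rw [map_one, map_one]
      have := h.loc.pi_ne
      field_simp
    rw [e]
    exact h1
  exact P.isPrime.ne_top ((Ideal.eq_top_iff_one _).2 h2)

/-- Division by the uniformizer. -/
theorem divq (h : CompP P ϖ L O' ι) : ∃ q : R, q ∉ P.asIdeal ∧
    ∀ b ∈ P.asIdeal, ∃ b' : R, b * q = ϖ * b' := by
  have h1 : P.asIdeal ∣ Ideal.span {ϖ} := by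
    rw [Ideal.dvd_span_singleton]
    exact pi_mem h
  obtain ⟨Q, hQ⟩ := h1
  have h2 : ¬ Q ≤ P.asIdeal := by
    intro hle
    apply pi_nsq h
    have h3 : ϖ ∈ P.asIdeal * Q := by
      rw [← hQ]
      exact Ideal.mem_span_singleton_self ϖ
    rw [pow_two]
    exact (Ideal.mul_mono_right hle) h3
  obtain ⟨q, hq, hqP⟩ := SetLike.not_le_iff_exists.1 h2
  refine ⟨q, hqP, fun b hb => ?_⟩
  have h3 : b * q ∈ Ideal.span {ϖ} := by
    rw [hQ]
    exact Ideal.mul_mem_mul hb hq
  obtain ⟨b', hb'⟩ := Ideal.mem_span_singleton.1 h3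
  exact ⟨b', hb'⟩

/-- Elements of `K` which are integral in the completion. -/
theorem frac (h : CompP P ϖ L O' ι) {x : K} (hx : ι x ∈ O') :
    ∃ b a : R, b ∉ P.asIdeal ∧ algebraMap R K b * x = algebraMap R K a := by
  obtain ⟨q, hqP, hq⟩ := divq h
  obtain ⟨hq0, hqi⟩ := unit_of h hqP
  have hpi := h.loc.pi_ne
  have key : ∀ (k : ℕ) (a b : R), b ≠ 0 → algebraMap R K b * x = algebraMap R K a →
      (ι (algebraMap R K b) / ι (algebraMap R K ϖ) ^ k)⁻¹ ∈ O' →
      ∃ b a : R, b ∉ P.asIdeal ∧ algebraMap R K b * x = algebraMap R K a := by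
    intro k
    induction k with
    | zero =>
      intro a b hb0 hab hk
      refine ⟨b, a, fun hb => ?_, hab⟩
      rw [pow_zero, div_one] at hk
      have hb0' : ι (algebraMap R K b) ≠ 0 := by
        intro e
        apply hb0
        apply IsFractionRing.injective R K
        rw [map_zero]
        exact ι.injective (by rw [e, map_zero])
      exact ((h.loc.unif _ (h.int b) hb0').2 ((h.mem b).2 hb)) hk
    | succ k ih =>
      intro a b hb0 hab hk
      by_cases hb : b ∈ P.asIdeal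
      · have ha : a ∈ P.asIdeal := by
          rw [← h.mem, ← hab, map_mul, mul_comm, mul_div_assoc]
          exact mul_mem hx ((h.mem b).2 hb)
        obtain ⟨b', hb'⟩ := hq b hb
        obtain ⟨a', ha'⟩ := hq a ha
        have hϖ0 : algebraMap R K ϖ ≠ 0 := by
          intro e
          apply hpi
          rw [e, map_zero]
        have hb'0 : b' ≠ 0 := by
          rintro rfl
          rw [mul_zero] at hb'
          rcases mul_eq_zero.1 hb' with e | e
          · exact hb0 e
          · apply hqP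
            rw [e]
            exact P.asIdeal.zero_mem
        refine ih a' b' hb'0 ?_ ?_
        · apply mul_left_cancel₀ hϖ0
          have e1 := congrArg (algebraMap R K) hb'
          have e2 := congrArg (algebraMap R K) ha'
          rw [map_mul, map_mul] at e1 e2
          rw [← mul_assoc, ← e1, ← e2, ← hab]
          ring
        · have e1 := congrArg (fun z => ι (algebraMap R K z)) hb'
          simp only [map_mul] at e1
          have e : (ι (algebraMap R K b') / ι (algebraMap R K ϖ) ^ k)⁻¹ =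
              (ι (algebraMap R K b) / ι (algebraMap R K ϖ) ^ (k + 1))⁻¹ *
                (ι (algebraMap R K q))⁻¹ := by
            rw [← mul_inv]
            congr 1
            rw [pow_succ]
            field_simp
            rw [mul_comm] at e1
            linear_combination -e1
          rw [e]
          exact mul_mem hk hqi
      · exact ⟨b, a, hb, hab⟩
  obtain ⟨a, b, hb, hx'⟩ := IsFractionRing.div_surjective (A := R) x
  have hb0 : b ≠ 0 := nonZeroDivisors.ne_zero hb
  have hbK : algebraMap R K b ≠ 0 := by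
    intro e
    exact hb0 ((IsFractionRing.injective R K) (by rw [e, map_zero]))
  have hbL : ι (algebraMap R K b) ≠ 0 := by
    intro e
    exact hbK (ι.injective (by rw [e, map_zero]))
  obtain ⟨n, h1, h2⟩ := h.loc.arch _ hbL
  have hn : (ι (algebraMap R K b) / ι (algebraMap R K ϖ) ^ (n.toNat))⁻¹ ∈ O' := by
    by_cases hn : 0 ≤ n
    · obtain ⟨k, rfl⟩ := Int.eq_ofNat_of_zero_le hn
      simpa using h2
    · have e0 : n.toNat = 0 := by omega
      rw [e0, pow_zero, div_one]
      obtain ⟨k, hk⟩ : ∃ k : ℕ, n = -(k : ℤ) := ⟨(-n).toNat, by omega⟩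
      have e : (ι (algebraMap R K b))⁻¹ =
          (ι (algebraMap R K b) / ι (algebraMap R K ϖ) ^ n)⁻¹ * ι (algebraMap R K ϖ) ^ k := by
        rw [hk, _root_.zpow_neg, zpow_natCast]
        field_simp
      rw [e]
      exact mul_mem h2 (pow_mem h.loc.pi_mem k)
  refine key n.toNat a b hb0 ?_ hn
  rw [← hx']
  field_simp

theorem inv_mod {b : R} (hb : b ∉ P.asIdeal) : ∃ c : R, c * b - 1 ∈ P.asIdeal := by
  obtain ⟨c, hc⟩ := P.isMaximal.exists_inv hb
  obtain ⟨i, hi, e⟩ := hc
  refine ⟨c, ?_⟩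
  have : c * b - 1 = -i := by rw [← e]; ring
  rw [this]
  exact P.asIdeal.neg_mem hi

theorem res_surj (h : CompP P ϖ L O' ι) : Function.Surjective (res h) := by
  intro y
  obtain ⟨z, rfl⟩ := IsLocalRing.residue_surjective y
  obtain ⟨x, hx⟩ := h.cpl.dense (z : L) (ι (algebraMap R K ϖ)) h.loc.pi_ne
  have hxO : ι x ∈ O' := by
    have h1 : ι x = z - ((z : L) - ι x) / ι (algebraMap R K ϖ) * ι (algebraMap R K ϖ) := by
      have := h.loc.pi_ne
      field_simp
      ring
    rw [h1]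
    exact sub_mem z.2 (mul_mem hx h.loc.pi_mem)
  obtain ⟨b, a, hb, hab⟩ := frac h hxO
  obtain ⟨c, hc⟩ := inv_mod hb
  refine ⟨a * c, ?_⟩
  show IsLocalRing.residue O' (phi h (a * c)) = IsLocalRing.residue O' z
  rw [eq_comm, ← sub_eq_zero, ← map_sub, IsLocalRing.residue_eq_zero_iff, mem_max h.loc]
  show ((z : L) - ι (algebraMap R K (a * c))) / ι (algebraMap R K ϖ) ∈ O'
  have e : ((z : L) - ι (algebraMap R K (a * c))) / ι (algebraMap R K ϖ) =
      ((z : L) - ι x) / ι (algebraMap R K ϖ) -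
        ι x * (ι (algebraMap R K (c * b - 1)) / ι (algebraMap R K ϖ)) := by
    have h1 : ι (algebraMap R K (a * c)) = ι x * ι (algebraMap R K (c * b)) := by
      rw [← map_mul]
      congr 1
      rw [map_mul, map_mul, ← hab]
      ring
    rw [h1, map_sub, map_sub, map_one, map_one]
    have := h.loc.pi_ne
    field_simp
    ring
  rw [e]
  exact sub_mem hx (mul_mem hxO ((h.mem _).2 hc))

theorem res_ker (h : CompP P ϖ L O' ι) : RingHom.ker (res h) = P.asIdeal := by
  ext p
  rw [RingHom.mem_ker, res_zero]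

/-- The isomorphism with the residue field. -/
noncomputable def ek (h : CompP P ϖ L O' ι) :
    R ⧸ P.asIdeal ≃+* IsLocalRing.ResidueField O' :=
  (Ideal.quotEquivOfEq (res_ker h).symm).trans
    (RingHom.quotientKerEquivOfSurjective (res_surj h))

theorem irr_iff (h : CompP P ϖ L O' ι) (γ : R[X]) :
    Irreducible (md P.asIdeal γ) ↔ Irreducible (γ.map (res h)) := by
  have h1 : γ.map (res h) = Polynomial.mapEquiv (ek h) (md P.asIdeal γ) := by
    rw [Polynomial.mapEquiv_apply, md, Polynomial.map_map]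
    rfl
  rw [h1, MulEquiv.irreducible_iff]

theorem cop_iff (h : CompP P ϖ L O' ι) (p f : R[X]) :
    IsCoprime (md P.asIdeal p) (md P.asIdeal f) ↔ IsCoprime (p.map (res h)) (f.map (res h)) := by
  have h1 : ∀ γ : R[X], γ.map (res h) = Polynomial.mapEquiv (ek h) (md P.asIdeal γ) := by
    intro γ
    rw [Polynomial.mapEquiv_apply, md, Polynomial.map_map]
    rfl
  rw [h1, h1]
  constructor
  · intro hc
    exact hc.map ((Polynomial.mapEquiv (ek h)).toRingHom)
  · intro hc
    have h2 : IsCoprime ((Polynomial.mapEquiv (ek h)).symm (Polynomial.mapEquiv (ek h)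
        (md P.asIdeal p))) ((Polynomial.mapEquiv (ek h)).symm (Polynomial.mapEquiv (ek h)
        (md P.asIdeal f))) := hc.map ((Polynomial.mapEquiv (ek h)).symm.toRingHom)
    rwa [RingEquiv.symm_apply_apply, RingEquiv.symm_apply_apply] at h2

theorem map_res_zero (h : CompP P ϖ L O' ι) (D : R[X]) :
    D.map (res h) = 0 ↔ Zer P.asIdeal D := by
  constructor
  · intro hD n
    rw [← res_zero h, ← coeff_map, hD, coeff_zero]
  · intro hD
    ext n
    rw [coeff_map, coeff_zero, res_zero]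
    exact hD n

theorem rd_map (h : CompP P ϖ L O' ι) (D : R[X]) : rd O' (D.map (phi h)) = D.map (res h) := by
  rw [rd, Polynomial.map_map]
  rfl

theorem oL_map (h : CompP P ϖ L O' ι) (D : R[X]) : oL O' (D.map (phi h)) = (fk K D).map ι := by
  rw [oL, Polynomial.map_map, fk, Polynomial.map_map]
  rfl

theorem oL_inj {p q : O'[X]} (h : oL O' p = oL O' q) : p = q :=
  Polynomial.map_injective _ (FaithfulSMul.algebraMap_injective O' L) h

/-- The uniformizer. -/
theorem phiP (h : CompP P ϖ L O' ι) {ϖ' : O'} (hϖ : (ϖ' : L) = ι (algebraMap R K ϖ)) :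
    phi h ϖ = ϖ' := Subtype.ext hϖ.symm

theorem rd_zero (h : CompP P ϖ L O' ι) {ϖ' : O'} (hϖ : (ϖ' : L) = ι (algebraMap R K ϖ))
    (z : O'[X]) (hz : rd O' z = 0) : ∃ δ : O'[X], z = C ϖ' * δ := by
  have h1 : C ϖ' ∣ z := by
    rw [C_dvd_iff_dvd_coeff]
    intro n
    have h2 : IsLocalRing.residue O' (z.coeff n) = 0 := by
      rw [← coeff_map]
      show (rd O' z).coeff n = 0
      rw [hz, coeff_zero]
    rw [IsLocalRing.residue_eq_zero_iff, mem_max h.loc] at h2
    refine ⟨⟨_, h2⟩, Subtype.ext ?_⟩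
    show (z.coeff n : L) = (ϖ' : L) * ((z.coeff n : L) / ι (algebraMap R K ϖ))
    rw [hϖ, mul_div_cancel₀ _ h.loc.pi_ne]
  exact h1

theorem rd_lift (h : CompP P ϖ L O' ι) {ϖ' : O'} (hϖ : (ϖ' : L) = ι (algebraMap R K ϖ))
    (z : O'[X]) : ∃ (a : R[X]) (δ : O'[X]), z = a.map (phi h) + C ϖ' * δ := by
  obtain ⟨a, ha⟩ := Polynomial.map_surjective _ (res_surj h) (rd O' z)
  obtain ⟨δ, hδ⟩ := rd_zero h hϖ (z - a.map (phi h)) (by
    rw [rd, Polynomial.map_sub]
    show rd O' z - rd O' (a.map (phi h)) = 0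
    rw [rd_map, ha, sub_self])
  exact ⟨a, δ, by rw [← hδ]; ring⟩

/-- The square of `P`. -/
theorem sq_iff (h : CompP P ϖ L O' ι) {a : R}
    (ha : ι (algebraMap R K a) / ι (algebraMap R K ϖ) ^ 2 ∈ O') : a ∈ P.asIdeal ^ 2 := by
  obtain ⟨q, hqP, hq⟩ := divq h
  have hpi := h.loc.pi_ne
  have ha1 : a ∈ P.asIdeal := by
    rw [← h.mem]
    have e : ι (algebraMap R K a) / ι (algebraMap R K ϖ) =
        ι (algebraMap R K a) / ι (algebraMap R K ϖ) ^ 2 * ι (algebraMap R K ϖ) := by
      field_simp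
    rw [e]
    exact mul_mem ha h.loc.pi_mem
  obtain ⟨a1, e1⟩ := hq a ha1
  have ha2 : a1 ∈ P.asIdeal := by
    rw [← h.mem]
    have e2 := congrArg (fun z => ι (algebraMap R K z)) e1
    simp only [map_mul] at e2
    have e : ι (algebraMap R K a1) / ι (algebraMap R K ϖ) =
        ι (algebraMap R K a) / ι (algebraMap R K ϖ) ^ 2 * ι (algebraMap R K q) := by
      field_simp
      linear_combination -e2
    rw [e]
    exact mul_mem ha (h.int q)
  have h3 : a * q ∈ P.asIdeal ^ 2 := by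
    rw [e1, pow_two]
    exact Ideal.mul_mem_mul (pi_mem h) ha2
  obtain ⟨r, hr⟩ := inv_mod hqP
  have h4 : (r * q - 1) ^ 2 ∈ P.asIdeal ^ 2 := Ideal.pow_mem_pow hr 2
  have e : a = a * (r * q - 1) ^ 2 + (2 * r - r ^ 2 * q) * (a * q) := by ring
  rw [e]
  exact add_mem (Ideal.mul_mem_left _ _ h4) (Ideal.mul_mem_left _ _ h3)

theorem sing (h : CompP P ϖ L O' ι) {ϖ' : O'} (hϖ : (ϖ' : L) = ι (algebraMap R K ϖ))
    (f : R[X]) (γ : O'[X]) (hm : γ.Monic) (hi : Irreducible (rd O' γ))
    (hs : InSq ϖ' (f.map (phi h)) γ) : Sing P.asIdeal f := by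
  obtain ⟨a, b, c, habc⟩ := hs
  have hl : rd O' γ ∈ Polynomial.lifts (res h) := by
    rw [Polynomial.mem_lifts]
    exact Polynomial.map_surjective _ (res_surj h) (rd O' γ)
  obtain ⟨γ', hγ1, _, hγ3⟩ := Polynomial.lifts_and_natDegree_eq_and_monic hl (hm.map _)
  obtain ⟨δ, hδ⟩ := rd_zero h hϖ (γ - γ'.map (phi h)) (by
    rw [rd, Polynomial.map_sub]
    show rd O' γ - rd O' (γ'.map (phi h)) = 0
    rw [rd_map, hγ1, sub_self])
  obtain ⟨a1, a2, ha⟩ := rd_lift h hϖ a
  obtain ⟨a3, a4, ha'⟩ := rd_lift h hϖ a2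
  obtain ⟨b1, b2, hb⟩ := rd_lift h hϖ (2 * δ * a + b)
  refine ⟨γ', a1 + C ϖ * a3, C ϖ * b1,
    f - γ' ^ 2 * (a1 + C ϖ * a3) - γ' * (C ϖ * b1), hγ3, ?_, ?_, ?_, ?_⟩
  · rw [irr_iff h, hγ1]
    exact hi
  · intro n
    rw [coeff_C_mul]
    exact Ideal.mul_mem_right _ _ (pi_mem h)
  · intro n
    apply sq_iff h
    have h2 : (f - γ' ^ 2 * (a1 + C ϖ * a3) - γ' * (C ϖ * b1)).map (phi h) =
        C (ϖ' ^ 2) * ((γ'.map (phi h)) ^ 2 * a4 + γ'.map (phi h) * b2 + δ ^ 2 * a +
          δ * b + c) := by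
      have h3 : γ = γ'.map (phi h) + C ϖ' * δ := by rw [← hδ]; ring
      rw [Polynomial.map_sub, Polynomial.map_sub, habc]
      simp only [Polynomial.map_add, Polynomial.map_mul, Polynomial.map_pow, map_C, phiP h hϖ,
        C_pow]
      rw [h3]
      linear_combination ((γ'.map (phi h)) ^ 2) * ha + C ϖ' * (γ'.map (phi h)) ^ 2 * ha' +
        C ϖ' * γ'.map (phi h) * hb
    have h4 := congrArg (fun q => ((q.coeff n : O') : L)) h2
    simp only [coeff_map, coeff_C_mul] at h4
    have h5 : ((phi h ((f - γ' ^ 2 * (a1 + C ϖ * a3) - γ' * (C ϖ * b1)).coeff n) : O') : L) =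
      ι (algebraMap R K
        ((f - γ' ^ 2 * (a1 + C ϖ * a3) - γ' * (C ϖ * b1)).coeff n)) := rfl
    rw [← h5, h4]
    rw [MulMemClass.coe_mul, SubmonoidClass.coe_pow, hϖ,
      mul_div_cancel_left₀ _ (pow_ne_zero 2 h.loc.pi_ne)]
    exact SetLike.coe_mem _
  · ring

/-- Clearing denominators in `L[x]`. -/
theorem clr (h : CompP P ϖ L O' ι) {ϖ' : O'} (hϖ : (ϖ' : L) = ι (algebraMap R K ϖ)) (z : L[X]) :
    ∃ (M : ℕ) (w : O'[X]), oL O' (C (ϖ' ^ M)) * z = oL O' w := by
  induction z using Polynomial.induction_on' with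
  | add p q hp hq =>
    obtain ⟨M1, w1, h1⟩ := hp
    obtain ⟨M2, w2, h2⟩ := hq
    refine ⟨M1 + M2, C (ϖ' ^ M2) * w1 + C (ϖ' ^ M1) * w2, ?_⟩
    simp only [oL, pow_add, C_mul, Polynomial.map_mul, Polynomial.map_add] at h1 h2 ⊢
    linear_combination (map (algebraMap O' L) (C (ϖ' ^ M2))) * h1 +
      (map (algebraMap O' L) (C (ϖ' ^ M1))) * h2
  | monomial n x =>
    by_cases hx : x = 0
    · refine ⟨0, 0, ?_⟩
      simp [hx]
    · obtain ⟨k, hk, _⟩ := h.loc.arch x hx
      have hp : (ι (algebraMap R K ϖ)) ≠ 0 := h.loc.pi_ne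
      have h1 : (ι (algebraMap R K ϖ)) ^ (-k).toNat * x ∈ O' := by
        have h2 : (ι (algebraMap R K ϖ)) ^ (-k).toNat * x =
            (x / ι (algebraMap R K ϖ) ^ k) *
              (ι (algebraMap R K ϖ)) ^ (k + ((-k).toNat : ℤ)).toNat := by
          have h3 : (((k + ((-k).toNat : ℤ)).toNat : ℕ) : ℤ) = k + ((-k).toNat : ℤ) := by
            apply Int.toNat_of_nonneg
            omega
          rw [← zpow_natCast (ι (algebraMap R K ϖ)) (k + ((-k).toNat : ℤ)).toNat, h3,
            zpow_add₀ hp, ← zpow_natCast]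
          field_simp
        rw [h2]
        exact mul_mem hk (pow_mem h.loc.pi_mem _)
      refine ⟨(-k).toNat, monomial n ⟨_, h1⟩, ?_⟩
      rw [oL, oL, map_C, map_monomial, C_mul_monomial]
      congr 1
      show ((ϖ' ^ (-k).toNat : O') : L) * x = ι (algebraMap R K ϖ) ^ (-k).toNat * x
      rw [SubmonoidClass.coe_pow, hϖ]

/-- Approximation of a polynomial over `L` by a polynomial over `K`. -/
theorem apx (h : CompP P ϖ L O' ι) {ϖ' : O'} (hϖ : (ϖ' : L) = ι (algebraMap R K ϖ)) (z : L[X])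
    (N : ℕ) : ∃ (z0 : K[X]) (w : O'[X]), z = z0.map ι + oL O' (C (ϖ' ^ N)) * oL O' w := by
  induction z using Polynomial.induction_on' with
  | add p q hp hq =>
    obtain ⟨z1, w1, h1⟩ := hp
    obtain ⟨z2, w2, h2⟩ := hq
    refine ⟨z1 + z2, w1 + w2, ?_⟩
    simp only [oL, Polynomial.map_add] at h1 h2 ⊢
    linear_combination h1 + h2
  | monomial n x =>
    have hp : (ι (algebraMap R K ϖ)) ^ N ≠ 0 := pow_ne_zero _ h.loc.pi_ne
    obtain ⟨y, hy⟩ := h.cpl.dense x _ hp
    refine ⟨monomial n y, monomial n ⟨_, hy⟩, ?_⟩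
    rw [oL, oL, map_C, map_monomial, map_monomial, C_mul_monomial, ← map_add]
    congr 1
    show x = ι y + ((ϖ' ^ N : O') : L) * ((x - ι y) / ι (algebraMap R K ϖ) ^ N)
    rw [SubmonoidClass.coe_pow, hϖ]
    field_simp
    ring

/-- Common denominators. -/
theorem den (h : CompP P ϖ L O' ι) (r : K[X]) (hr : ∀ n, ι (r.coeff n) ∈ O') :
    ∃ (m : R) (q : R[X]), m ∉ P.asIdeal ∧ C (algebraMap R K m) * r = fk K q := by
  classical
  choose b a hb hab using fun n => frac h (hr n)
  set m : R := ∏ n ∈ r.support, b n with hm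
  have h1 : C (algebraMap R K m) * r ∈ Polynomial.lifts (algebraMap R K) := by
    rw [Polynomial.lifts_iff_coeff_lifts]
    intro n
    rw [coeff_C_mul]
    by_cases hn : n ∈ r.support
    · have h2 : m = b n * ∏ k ∈ r.support.erase n, b k := by
        exact (Finset.mul_prod_erase r.support (fun k => b k) hn).symm
      refine ⟨(∏ k ∈ r.support.erase n, b k) * a n, ?_⟩
      rw [h2, map_mul, map_mul, ← hab]
      ring
    · rw [Polynomial.notMem_support_iff.1 hn, mul_zero]
      exact ⟨0, map_zero _⟩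
  rw [Polynomial.mem_lifts] at h1
  obtain ⟨q, hq⟩ := h1
  refine ⟨m, q, ?_, hq.symm⟩
  intro hmP
  rw [hm] at hmP
  obtain ⟨n, _, hn⟩ := (P.isPrime.prod_mem_iff).1 hmP
  exact hb n hn

/-- Descent of a class. -/
theorem main (h : CompP P ϖ L O' ι) (f : R[X]) (hf : f.Monic) (u : K[X]) (s : L[X]) (p : O'[X])
    (hd : oL O' (f.map (phi h)) ∣ u.map ι * s ^ 2 - oL O' p) :
    ∃ (s1 : K[X]) (q : R[X]), fk K f ∣ u * s1 ^ 2 - fk K q ∧
      q.map (res h) = rd O' p := by
  set ϖ' : O' := ⟨ι (algebraMap R K ϖ), h.loc.pi_mem⟩ with hϖd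
  have hϖ : (ϖ' : L) = ι (algebraMap R K ϖ) := rfl
  obtain ⟨M, u', hu'⟩ := clr h hϖ (u.map ι)
  obtain ⟨M', s', hs'⟩ := clr h hϖ s
  obtain ⟨s0, w, hs0⟩ := apx h hϖ s (M + M' + 1)
  set fO : O'[X] := f.map (phi h) with hfO
  have hfOm : fO.Monic := hf.map _
  have hfKm : (fk K f).Monic := hf.map _
  obtain ⟨p', hp'1, hp'2⟩ : ∃ p' : O'[X], rd O' p' = rd O' p ∧
      oL O' fO ∣ u.map ι * (s0.map ι) ^ 2 - oL O' p' := by
    refine ⟨p - C ϖ' * (2 * u' * s' * w - C (ϖ' ^ (M + 2 * M' + 1)) * (u' * w ^ 2)), ?_, ?_⟩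
    · have h0 : IsLocalRing.residue O' ϖ' = 0 := by
        rw [IsLocalRing.residue_eq_zero_iff, mem_max h.loc, hϖ, div_self h.loc.pi_ne]
        exact one_mem O'
      rw [rd, Polynomial.map_sub, Polynomial.map_mul, map_C, h0, C_0, zero_mul, sub_zero]
    · obtain ⟨c, hc⟩ := hd
      refine ⟨c, ?_⟩
      have h1 : s0.map ι = s - oL O' (C (ϖ' ^ (M + M' + 1))) * oL O' w := by
        rw [hs0]
        ring
      have h2 : oL O' (C (ϖ' ^ (M + M' + 1))) = oL O' (C ϖ') * oL O' (C (ϖ' ^ M)) *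
          oL O' (C (ϖ' ^ M')) := by
        simp only [oL, map_C, ← map_mul]
        congr 2
        ring
      have h3 : oL O' (C (ϖ' ^ (M + M' + 1))) ^ 2 = oL O' (C ϖ') * oL O' (C (ϖ' ^ M)) *
          oL O' (C (ϖ' ^ (M + 2 * M' + 1))) := by
        simp only [oL, map_C, ← map_mul, ← map_pow]
        congr 2
        ring
      have h4 : oL O' (p - C ϖ' * (2 * u' * s' * w - C (ϖ' ^ (M + 2 * M' + 1)) *
          (u' * w ^ 2))) =
          oL O' p - oL O' (C ϖ') * (2 * oL O' u' * oL O' s' * oL O' w -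
            oL O' (C (ϖ' ^ (M + 2 * M' + 1))) * (oL O' u' * oL O' w ^ 2)) := by
        simp only [oL, Polynomial.map_sub, Polynomial.map_mul, Polynomial.map_pow,
          Polynomial.map_ofNat]
      have h5 : u.map ι * (s0.map ι) ^ 2 = u.map ι * s ^ 2 -
          oL O' (C ϖ') * (2 * oL O' u' * oL O' s' * oL O' w -
            oL O' (C (ϖ' ^ (M + 2 * M' + 1))) * (oL O' u' * oL O' w ^ 2)) := by
        rw [h1, ← hu', ← hs']
        have h6 : u.map ι * (s - oL O' (C (ϖ' ^ (M + M' + 1))) * oL O' w) ^ 2 =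
          u.map ι * s ^ 2 - 2 * (u.map ι) * s * oL O' (C (ϖ' ^ (M + M' + 1))) * oL O' w +
            u.map ι * oL O' w ^ 2 * oL O' (C (ϖ' ^ (M + M' + 1))) ^ 2 := by ring
        rw [h6, h3, h2]
        ring
      rw [h5, h4, ← hc]
      ring
  set r : K[X] := (u * s0 ^ 2) %ₘ fk K f with hr
  have hr1 : r.map ι = oL O' (p' %ₘ fO) := by
    rw [hr, Polynomial.map_modByMonic _ hfKm, oL, Polynomial.map_modByMonic _ hfOm]
    have h1 : (fk K f).map ι = oL O' fO := (oL_map h f).symm
    rw [h1]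
    have h2 : (oL O' fO).Monic := hfOm.map _
    have h3 := Polynomial.modByMonic_eq_of_dvd_sub h2 hp'2
    rw [← h3, Polynomial.map_mul, Polynomial.map_pow]
  have hr2 : ∀ n, ι (r.coeff n) ∈ O' := by
    intro n
    rw [← coeff_map, hr1, coeff_map]
    exact SetLike.coe_mem _
  obtain ⟨m, q0, hm, hq0⟩ := den h r hr2
  obtain ⟨m', hmn⟩ := inv_mod hm
  have hresm : res h m' * res h m = 1 := by
    have h1 := (res_zero h _).2 hmn
    rw [map_sub, map_mul, map_one, sub_eq_zero] at h1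
    exact h1
  obtain ⟨l, hl⟩ := Polynomial.map_surjective _ (res_surj h) (rd O' (p' /ₘ fO))
  refine ⟨C (algebraMap R K (m * m')) * s0, C (m * m' * m') * q0 + f * l, ?_, ?_⟩
  · have h1 := Polynomial.modByMonic_add_div (u * s0 ^ 2) (fk K f)
    refine ⟨C (algebraMap R K (m * m')) ^ 2 * ((u * s0 ^ 2) /ₘ fk K f) - fk K l, ?_⟩
    have h2 : fk K (C (m * m' * m') * q0 + f * l) = C (algebraMap R K (m' * m')) *
        C (algebraMap R K m) * fk K q0 + fk K f * fk K l := by
      simp only [fk, Polynomial.map_add, Polynomial.map_mul, map_C]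
      rw [← C_mul, ← map_mul]
      congr 4
      ring
    rw [h2, ← hq0]
    have h3 : C (algebraMap R K (m * m')) = (C (algebraMap R K m) * C (algebraMap R K m') :
        K[X]) := by
      rw [← C_mul, ← map_mul]
    have h4 : C (algebraMap R K (m' * m')) = (C (algebraMap R K m') * C (algebraMap R K m') :
        K[X]) := by
      rw [← C_mul, ← map_mul]
    rw [h3, h4]
    rw [← hr] at h1
    linear_combination (C (algebraMap R K m) * C (algebraMap R K m')) ^ 2 * (-h1)
  · have h1 : q0.map (phi h) = C (phi h m) * (p' %ₘ fO) := by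
      apply oL_inj
      rw [oL_map, ← hq0, Polynomial.map_mul, hr1, oL, oL, Polynomial.map_mul, map_C, map_C]
      rfl
    have h2 : q0.map (res h) = C (res h m) * rd O' (p' %ₘ fO) := by
      rw [← rd_map, h1, rd, Polynomial.map_mul, map_C]
      rfl
    rw [Polynomial.map_add, Polynomial.map_mul, Polynomial.map_mul, map_C, h2, hl, ← hp'1,
      ← rd_map h f, ← hfO]
    have h3 := congrArg (rd O') (Polynomial.modByMonic_add_div p' fO)
    rw [rd, Polynomial.map_add, Polynomial.map_mul] at h3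
    have h4 : C (res h (m * m' * m')) * (C (res h m) * rd O' (p' %ₘ fO)) =
        rd O' (p' %ₘ fO) := by
      have h5 : res h (m * m' * m') * res h m = 1 := by
        rw [map_mul, map_mul]
        linear_combination (res h m' * res h m + 1) * hresm
      rw [← mul_assoc, ← C_mul, h5, C_1, one_mul]
    rw [h4]
    exact h3

/-- Units modulo `(P, f)` are prime to `f`. -/
theorem cop (h : CompP P ϖ L O' ι) (f q : R[X])
    (hf : f.Monic) (hc : IsCoprime (q.map (res h)) (f.map (res h))) :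
    IsCoprime (fk K q) (fk K f) := by
  by_contra hn
  have hfK : fk K f ≠ 0 := (hf.map _).ne_zero
  obtain ⟨d, hd, hd1, hd2⟩ : ∃ d : K[X], Irreducible d ∧ d ∣ fk K q ∧ d ∣ fk K f := by
    by_contra hno
    push Not at hno
    exact hn (isCoprime_of_irreducible_dvd (fun hh => hfK hh.2)
      (fun z hz h1 h2 => hno z hz h1 h2))
  obtain ⟨d', hd'⟩ := IsIntegrallyClosed.eq_map_mul_C_of_dvd K hf hd2
  have hlc : d.leadingCoeff ≠ 0 := leadingCoeff_ne_zero.2 hd.ne_zero
  have h1 : fk K d' = d * C (d.leadingCoeff)⁻¹ := by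
    have h2 : C d.leadingCoeff * C (d.leadingCoeff)⁻¹ = (1 : K[X]) := by
      rw [← C_mul, mul_inv_cancel₀ hlc, C_1]
    linear_combination C (d.leadingCoeff)⁻¹ * hd' - fk K d' * h2
  have hmon : (fk K d').Monic := by
    rw [h1]
    exact monic_mul_leadingCoeff_inv hd.ne_zero
  have hinj := IsFractionRing.injective R K
  have hm' : d'.Monic := Polynomial.monic_of_injective hinj hmon
  have hdd : fk K d' ∣ d := ⟨C d.leadingCoeff, hd'.symm⟩
  have h3 : d' ∣ q := (Polynomial.map_dvd_map _ hinj hm').1 (hdd.trans hd1)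
  have h4 : d' ∣ f := (Polynomial.map_dvd_map _ hinj hm').1 (hdd.trans hd2)
  have h5 : IsUnit (d'.map (res h)) :=
    hc.isUnit_of_dvd' (Polynomial.map_dvd _ h3) (Polynomial.map_dvd _ h4)
  have h6 : d'.natDegree = 0 := by
    rw [← hm'.natDegree_map (res h)]
    exact natDegree_eq_zero_of_isUnit h5
  have h7 : d' = 1 := hm'.natDegree_eq_zero.1 h6
  apply hd.not_isUnit
  rw [← hd', h7, Polynomial.map_one, one_mul]
  exact isUnit_C.2 (isUnit_iff_ne_zero.2 hlc)

end Base

end Pool.T1.INOK43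

namespace Pool.T1

open Polynomial Matrix Pool.HYP Pool.TOW Pool.AVS Pool.AVS.RIP IsDedekindDomain INOK43

theorem inok : INOKStmt := by
  intro R _ _ K _ _ _ P ϖ L _ O' ι h f hf
  refine ⟨f.map (phi h), hf.map _, hf.natDegree_map _, oL_map h f, ?_, ?_, ?_, ?_, ?_⟩
  · intro ϖ' hϖ γ hm hi hs
    exact sing h hϖ f γ hm hi hs
  · intro c γ n hok hd
    obtain ⟨h3, h4, h5⟩ := hok
    refine ⟨res h c, γ.map (res h), h3.map _, by rw [h3.natDegree_map, h4],
      (irr_iff h γ).1 h5, ?_⟩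
    have h6 := (map_res_zero h _).2 hd
    rw [Polynomial.map_sub, Polynomial.map_mul, Polynomial.map_sub, map_X, map_C,
      sub_eq_zero] at h6
    rw [rd_map, h6]
  · intro γ n hok hd
    obtain ⟨h3, h4, h5⟩ := hok
    have h6 := (map_res_zero h _).2 hd
    rw [Polynomial.map_sub, sub_eq_zero] at h6
    rw [rd_map, h6]
    exact (irr_iff h γ).1 h5
  · intro u _
    constructor
    · rintro ⟨s, p, _, hd, hc⟩
      obtain ⟨s1, q, h1, h2⟩ := main h f hf u s p hd
      rw [← h2, rd_map] at hc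
      have h3 := cop h f q hf hc
      refine ⟨s1, q, ?_, h1, (cop_iff h q f).2 hc⟩
      obtain ⟨c, hc'⟩ := h1
      have h4 : IsCoprime (u * s1 ^ 2) (fk K f) := by
        have h5 : u * s1 ^ 2 = fk K q + fk K f * c := by rw [← hc']; ring
        rw [h5]
        exact h3.add_mul_left_left c
      exact (h4.of_mul_left_right).of_isCoprime_of_dvd_left ⟨s1, by ring⟩
    · rintro ⟨s, p, hs, hd, hc⟩
      refine ⟨s.map ι, p.map (phi h), ?_, ?_, ?_⟩
      · rw [oL_map]
        exact hs.map (Polynomial.mapRingHom ι)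
      · rw [oL_map, oL_map]
        have h1 := Polynomial.map_dvd ι hd
        rwa [Polynomial.map_sub, Polynomial.map_mul, Polynomial.map_pow] at h1
      · rw [rd_map, rd_map]
        exact (cop_iff h p f).1 hc
  · intro u _ ht
    obtain ⟨s, p, _, hd, h1⟩ := ht
    obtain ⟨s1, q, h2, h3⟩ := main h f hf u s p hd
    rw [h1] at h3
    have h4 : Zer P.asIdeal (q - 1) := by
      rw [← map_res_zero h, Polynomial.map_sub, h3, Polynomial.map_one, sub_self]
    have hq : q = 1 + (q - 1) := by ring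
    have h5 : IsCoprime (fk K q) (fk K f) := cop h f q hf (by rw [h3]; exact isCoprime_one_left)
    refine ⟨s1, q - 1, ?_, ?_, h4⟩
    · obtain ⟨c, hc'⟩ := h2
      have h4 : IsCoprime (u * s1 ^ 2) (fk K f) := by
        have h6 : u * s1 ^ 2 = fk K q + fk K f * c := by rw [← hc']; ring
        rw [h6]
        exact h5.add_mul_left_left c
      exact (h4.of_mul_left_right).of_isCoprime_of_dvd_left ⟨s1, by ring⟩
    · rw [← hq]
      exact h2

end Pool.T1
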