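import Pool.Agent.H14.T1.S3
import Pool.Agent.H30.T1.Loc
import Pool.Agent.H93.HYP.LattB

/-!
# T1: GDU (a good prime, self-dual lattices)
-/

set_option autoImplicit false

namespace Pool.T1.GDU43

open Polynomial Matrix Pool.HYP Pool.TOW Pool.AVS IsDedekindDomain

section Gen

variable {L : Type} [Field L] {I : Set L}

lemma ui_mul (hI : ∀ x y : L, x ∈ I → y ∈ I → x * y ∈ I) {x y : L} (hx : UI I x)
    (hy : UI I y) : UI I (x * y) :=
  ⟨mul_ne_zero hx.1 hy.1, hI _ _ hx.2.1 hy.2.1, by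
    rw [mul_inv]
    exact hI _ _ hx.2.2 hy.2.2⟩

end Gen

section Loc

variable {R : Type} [CommRing R] {K : Type} [Field K] [Algebra R K] {P : HeightOneSpectrum R}

lemma rp_neg {x : K} (hx : x ∈ RP K P) : -x ∈ RP K P := by
  have h : (-1 : K) ∈ RP K P := by
    have := rp_alg (K := K) (P := P) (-1 : R)
    rwa [map_neg, map_one] at this
  have := rp_mul h hx
  rwa [neg_one_mul] at this

/-- The elements regular at `P` as a subring. -/
def RPs (K : Type) [Field K] [Algebra R K] (P : HeightOneSpectrum R) : Subring K where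
  carrier := RP K P
  mul_mem' := rp_mul
  one_mem' := rp_one
  add_mem' := rp_add
  zero_mem' := rp_zero
  neg_mem' := rp_neg

/-- The determinant of a matrix congruent to one modulo `a`. -/
lemma det_near {n : ℕ} {a : K} (ha : a ∈ RP K P) (E : Matrix (Fin n) (Fin n) K)
    (hE : MIn (RP K P) E) : ∃ z ∈ RP K P, (1 + a • E).det = 1 + a * z := by
  set E' : Matrix (Fin n) (Fin n) (RPs K P) := Matrix.of fun i j => ⟨E i j, hE i j⟩ with hE'
  set a' : RPs K P := ⟨a, ha⟩ with ha'
  have h1 : (1 + a • E) = (RPs K P).subtype.mapMatrix (1 + a' • E') := by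
    ext i j
    simp only [RingHom.mapMatrix_apply, Matrix.map_apply, Matrix.add_apply, Matrix.smul_apply,
      Matrix.one_apply, hE', ha', Matrix.of_apply, smul_eq_mul, map_add, map_mul]
    split_ifs <;> simp
  rw [h1, ← RingHom.map_det, Matrix.det_one_add_smul]
  refine ⟨_, (trace E' + (det (1 + (Polynomial.X : (RPs K P)[X]) • E'.map C)).divX.divX.eval a' *
    a').2, ?_⟩
  simp only [map_add, map_one, map_mul, map_pow, Subring.coe_subtype]
  push_cast
  ring

variable [IsDedekindDomain R] [IsFractionRing R K]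

lemma unit_near {α : R} (hα : α ∈ P.asIdeal) {z : K} (hz : z ∈ RP K P) :
    UI (RP K P) (1 + algebraMap R K α * z) := by
  obtain ⟨m, hm, r, hr⟩ := hz
  have hmr : m + α * r ∉ P.asIdeal := by
    intro h
    apply hm
    have := P.asIdeal.sub_mem h (P.asIdeal.mul_mem_right r hα)
    rwa [add_sub_cancel_right] at this
  have hm0 : algebraMap R K m ≠ 0 := alg_ne fun h => hm (by rw [h]; exact P.asIdeal.zero_mem)
  have hmr0 : algebraMap R K (m + α * r) ≠ 0 :=
    alg_ne fun h => hmr (by rw [h]; exact P.asIdeal.zero_mem)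
  have e : 1 + algebraMap R K α * z = algebraMap R K (m + α * r) * (algebraMap R K m)⁻¹ := by
    rw [map_add, map_mul, ← hr]
    field_simp
  rw [e]
  refine ⟨mul_ne_zero hmr0 (inv_ne_zero hm0), rp_mul (rp_alg _) (rp_inv hm), ?_⟩
  rw [mul_inv, inv_inv]
  exact rp_mul (rp_inv hmr) (rp_alg _)

/-- Change of the basis by a matrix which is near. -/
lemma gin_near {n : ℕ} {α : R} (hα : α ∈ P.asIdeal) (hα0 : α ≠ 0)
    (A k h : Matrix (Fin n) (Fin n) K) (hk : k.det ≠ 0) (hkA : GIn (RP K P) (kᵀ * A * k))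
    (hn : ∀ i j, (k⁻¹ * h - 1) i j / algebraMap R K α ∈ RP K P) :
    GIn (RP K P) (hᵀ * A * h) := by
  have ha0 : algebraMap R K α ≠ 0 := alg_ne hα0
  set a := algebraMap R K α with ha
  set E : Matrix (Fin n) (Fin n) K := Matrix.of fun i j => (k⁻¹ * h - 1) i j / a with hE
  have hu : k⁻¹ * h = 1 + a • E := by
    ext i j
    simp only [hE, Matrix.add_apply, Matrix.smul_apply, Matrix.of_apply, smul_eq_mul,
      Matrix.sub_apply]
    field_simp
    ring
  have hEI : MIn (RP K P) E := hn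
  have hh : h = k * (1 + a • E) := by
    rw [← hu, Matrix.mul_nonsing_inv_cancel_left _ _ (isUnit_iff_ne_zero.2 hk)]
  have hMu : MIn (RP K P) (1 + a • E) := by
    intro i j
    rw [Matrix.add_apply, Matrix.smul_apply, smul_eq_mul, Matrix.one_apply]
    refine rp_add ?_ (rp_mul (rp_alg α) (hEI i j))
    split_ifs
    · exact rp_one
    · exact rp_zero
  have hMt : MIn (RP K P) (1 + a • E)ᵀ := fun i j => hMu j i
  have e : hᵀ * A * h = (1 + a • E)ᵀ * (kᵀ * A * k) * (1 + a • E) := by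
    rw [hh, Matrix.transpose_mul]
    simp only [Matrix.mul_assoc]
  rw [e]
  refine ⟨rp_min_mul (rp_min_mul hMt hkA.1) hMu, ?_⟩
  obtain ⟨z, hz, hdet⟩ := det_near (rp_alg α) E hEI
  have hU : UI (RP K P) (1 + a • E).det := by
    rw [hdet]
    exact unit_near hα hz
  rw [Matrix.det_mul, Matrix.det_mul, Matrix.det_transpose]
  have hc : ∀ x y : K, x ∈ RP K P → y ∈ RP K P → x * y ∈ RP K P := fun x y => rp_mul
  exact ui_mul hc (ui_mul hc hU hkA.2) hU

end Loc

end Pool.T1.GDU43

namespace Pool.T1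

open Polynomial Matrix Pool.HYP Pool.TOW Pool.AVS IsDedekindDomain GDU43

theorem gdu (hT : TRFStmt) (hW : WAPStmt) (hB : SEMBStmt) (_hC : SEMCStmt) : GDUStmt := by
  intro F _ K _ _ _ _ n N ω p hpm hpi hgood A hSD
  classical
  have hp0 : xR F K p ≠ 0 := by
    intro h
    have h1 := congrArg (fun r : RR F K => (r : K)) h
    simp only [xR_coe] at h1
    have h2 : algebraMap F[X] (RatFunc F) p = 0 := by
      apply (algebraMap (RatFunc F) K).injective
      rw [h1, map_zero]
      rfl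
    exact hpi.ne_zero (rf_inj (h2.trans rf_zero.symm))
  have hfin : {P : HeightOneSpectrum (RR F K) | Abv p P}.Finite := by
    have hI : Ideal.span {xR F K p} ≠ (0 : Ideal (RR F K)) := by
      rw [Ideal.zero_eq_bot, Ne, Ideal.span_singleton_eq_bot]
      exact hp0
    refine (Ideal.finite_factors hI).subset fun P hP => ?_
    rw [Set.mem_ofPred_eq, Ideal.dvd_span_singleton]
    exact hP
  have hk : ∀ P : HeightOneSpectrum (RR F K), ∃ k : Matrix (Fin N) (Fin N) K, k.det ≠ 0 ∧
      (Abv p P → GIn (RP K P) (kᵀ * A * k)) := by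
    intro P
    by_cases hP : Abv p P
    · obtain ⟨k, h1, h2⟩ := hSD P hP
      exact ⟨k, h1, fun _ => h2⟩
    · exact ⟨1, by rw [Matrix.det_one]; exact one_ne_zero, fun h => (hP h).elim⟩
  choose k hk0 hkA using hk
  obtain ⟨h, hh0, hh⟩ := (hW (RR F K) K hfin.toFinset (algebraMap (RR F K) K (xR F K p))
    (alg_ne hp0)).2 N k fun P _ => hk0 P
  have hG : ∀ P : HeightOneSpectrum (RR F K), Abv p P → GIn (RP K P) (hᵀ * A * h) := by
    intro P hP
    exact gin_near (α := xR F K p) hP hp0 A (k P) h (hk0 P) (hkA P hP)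
      (hh P (hfin.mem_toFinset.2 hP))
  set B := hᵀ * A * h with hBdef
  have hBI : ∀ i j, B i j ∈ IS (F := F) K p := fun i j P hP => (hG P hP).1 i j
  have hω : ∀ i, ∀ P : HeightOneSpectrum (RR F K), ω i ∈ RP K P := fun i P =>
    rp_alg (⟨ω i, hgood.1 i⟩ : RR F K)
  obtain ⟨hT1, hT2, hT3, -⟩ := hT (RatFunc F) K n N ω
  refine ⟨lmm ω h, ?_, ?_⟩
  · rw [hT3]
    exact Algebra.norm_ne_zero_iff.2 hh0
  rw [hT1]
  by_cases hN : B.det = 0
  · exfalso
    obtain ⟨P, hP⟩ : ∃ P : HeightOneSpectrum (RR F K), Abv p P := by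
      by_contra hne
      push Not at hne
      have h1 := (hB F K p hpm hpi (algebraMap (RatFunc F) K (rf p)⁻¹)
        fun P hP => (hne P hP).elim).2.2
      rw [Algebra.norm_algebraMap] at h1
      obtain ⟨d, hd⟩ : ∃ d, Module.finrank (RatFunc F) K = d + 1 :=
        ⟨Module.finrank (RatFunc F) K - 1, by have := Module.finrank_pos (R := RatFunc F) (M := K)
                                              omega⟩
      rw [hd] at h1
      have hrp : rf p ≠ 0 := rf_ne hpi.ne_zero
      have h2 : (rf p)⁻¹ ∈ IP p := by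
        have h3 := ip_mul hpi (ip_pow hpi (ip_rf hpi p) d) h1
        have e : rf p ^ d * ((rf p)⁻¹) ^ (d + 1) = (rf p)⁻¹ := by
          rw [pow_succ, ← mul_assoc, ← mul_pow, mul_inv_cancel₀ hrp, one_pow, one_mul]
        rwa [e] at h3
      obtain ⟨m, a, hm, hma⟩ := (ip_iff p hpi _).1 h2
      apply hm
      refine ⟨a, rf_inj ?_⟩
      rw [rf_mul, ← hma]
      field_simp
    exact (hG P hP).2.1 hN
  refine ⟨fun q q' => ?_, ?_⟩
  · refine (hB F K p hpm hpi (ω q.2 * ω q'.2 * B q.1 q'.1) ?_).2.1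
    intro P hP
    exact rp_mul (rp_mul (hω _ P) (hω _ P)) (hBI _ _ P hP)
  · rw [hT2]
    have hc : ∀ x y : RatFunc F, x ∈ IP p → y ∈ IP p → x * y ∈ IP p := fun x y => ip_mul hpi
    have h1 : UI (IP p) ((trd ω).det ^ N) := by
      refine ⟨pow_ne_zero _ hgood.2.1, ip_pow hpi hgood.2.2.1 N, ?_⟩
      rw [← inv_pow]
      exact ip_pow hpi hgood.2.2.2 N
    refine ui_mul hc h1 ⟨Algebra.norm_ne_zero_iff.2 hN, ?_, ?_⟩
    · exact (hB F K p hpm hpi B.det fun P hP => (hG P hP).2.2.1).2.2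
    · have e : (Algebra.norm (RatFunc F) B.det)⁻¹ = Algebra.norm (RatFunc F) (B.det)⁻¹ := by
        symm
        apply eq_inv_of_mul_eq_one_left
        rw [← map_mul, inv_mul_cancel₀ hN, map_one]
      rw [e]
      exact (hB F K p hpm hpi (B.det)⁻¹ fun P hP => (hG P hP).2.2.2).2.2

end Pool.T1
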