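import Pool.Agent.H29.T1.S8

/-!
# T1: FINK (finiteness of the group of points, by descent of heights)
-/

set_option autoImplicit false

namespace Pool.T1.FINK43

open Polynomial Matrix Pool.HYP Pool.TOW Pool.AVS IsDedekindDomain

section Size

variable {K : Type} [Field K] (O : ValuationSubring K) (π : K)

/-- `x` has a pole of order at most `m`. -/
def Sz (m : ℤ) (x : K) : Prop := x * π ^ m ∈ O

variable {O π}

lemma sz_add {m : ℤ} {x y : K} (hx : Sz O π m x) (hy : Sz O π m y) : Sz O π m (x + y) := by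
  unfold Sz at *
  rw [add_mul]
  exact add_mem hx hy

lemma sz_neg {m : ℤ} {x : K} (hx : Sz O π m x) : Sz O π m (-x) := by
  unfold Sz at *
  rw [neg_mul]
  exact neg_mem hx

lemma sz_sub {m : ℤ} {x y : K} (hx : Sz O π m x) (hy : Sz O π m y) : Sz O π m (x - y) := by
  rw [sub_eq_add_neg]
  exact sz_add hx (sz_neg hy)

lemma sz_zero (m : ℤ) : Sz O π m 0 := by
  unfold Sz
  rw [zero_mul]
  exact zero_mem _

lemma sz_mul (h0 : π ≠ 0) {m n : ℤ} {x y : K} (hx : Sz O π m x) (hy : Sz O π n y) :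
    Sz O π (m + n) (x * y) := by
  unfold Sz at *
  have : x * y * π ^ (m + n) = (x * π ^ m) * (y * π ^ n) := by
    rw [zpow_add₀ h0]
    ring
  rw [this]
  exact mul_mem hx hy

lemma sz_mono (h0 : π ≠ 0) (h1 : π ∈ O) {m n : ℤ} (h : m ≤ n) {x : K} (hx : Sz O π m x) :
    Sz O π n x := by
  unfold Sz at *
  obtain ⟨k, hk⟩ := Int.le.dest h
  have : x * π ^ n = (x * π ^ m) * π ^ k := by
    rw [← hk, zpow_add₀ h0, zpow_natCast]
    ring
  rw [this]
  exact mul_mem hx (pow_mem h1 k)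

lemma sz_pow (h0 : π ≠ 0) {m : ℤ} {x : K} (hx : Sz O π m x) (k : ℕ) :
    Sz O π (k * m) (x ^ k) := by
  unfold Sz at *
  have : x ^ k * π ^ ((k : ℤ) * m) = (x * π ^ m) ^ k := by
    rw [mul_pow, mul_comm (k : ℤ) m, _root_.zpow_mul, zpow_natCast]
  rw [this]
  exact pow_mem hx k

lemma sz_root {m : ℤ} {x : K} {k : ℕ} (hk : 1 ≤ k) (hx : Sz O π (k * m) (x ^ k)) :
    Sz O π m x := by
  unfold Sz at *
  have e : x ^ k * π ^ ((k : ℤ) * m) = (x * π ^ m) ^ k := by
    rw [mul_pow, mul_comm (k : ℤ) m, _root_.zpow_mul, zpow_natCast]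
  rw [e] at hx
  rcases O.mem_or_inv_mem (x * π ^ m) with h | h
  · exact h
  · by_cases hz : x * π ^ m = 0
    · rw [hz]
      exact zero_mem _
    obtain ⟨j, rfl⟩ : ∃ j, k = j + 1 := ⟨k - 1, by omega⟩
    have : x * π ^ m = (x * π ^ m) ^ (j + 1) * ((x * π ^ m)⁻¹) ^ j := by
      rw [pow_succ, inv_pow]
      field_simp
    rw [this]
    exact mul_mem hx (pow_mem h j)

lemma sz_sum {ι : Type} (s : Finset ι) (f : ι → K) {m : ℤ} (h : ∀ i ∈ s, Sz O π m (f i)) :
    Sz O π m (∑ i ∈ s, f i) := by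
  classical
  induction s using Finset.induction_on with
  | empty => simpa using sz_zero m
  | insert a s ha ih =>
    rw [Finset.sum_insert ha]
    exact sz_add (h a (Finset.mem_insert_self _ _))
      (ih fun i hi => h i (Finset.mem_insert_of_mem hi))

end Size

section Rel

variable {R : Type} [CommRing R] [IsDedekindDomain R] {K : Type} [Field K] [Algebra R K]
  [IsFractionRing R K] {O : ValuationSubring K} {π : K}

omit [IsFractionRing R K] in
lemma sz_exists (h : GR R O π) (x : K) : ∃ m : ℕ, Sz O π m x := by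
  by_cases hx : x = 0
  · exact ⟨0, by rw [hx]; exact sz_zero _⟩
  obtain ⟨n, h1, -⟩ := h.val x hx
  refine ⟨(-n).toNat, sz_mono h.pi_ne h.pi_mem (m := -n) (Int.self_le_toNat _) ?_⟩
  unfold Sz
  rw [_root_.zpow_neg, ← div_eq_mul_inv]
  exact h1

lemma sz_bound (h : GR R O π) {ι : Type} (s : Finset ι) (f : ι → K) :
    ∃ m : ℕ, ∀ i ∈ s, Sz O π m (f i) := by
  classical
  choose g hg using fun i => sz_exists h (f i)
  refine ⟨s.sup g, fun i hi => sz_mono h.pi_ne h.pi_mem ?_ (hg i)⟩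
  exact_mod_cast Finset.le_sup hi

/-- An element of `R` has size at least one. -/
lemma sz_cancel (h : GR R O π) {a : R} (ha : a ≠ 0) {m : ℤ} {y : K}
    (hy : Sz O π m (algebraMap R K a * y)) : Sz O π m y := by
  have haK : algebraMap R K a ≠ 0 := by
    intro e
    exact ha ((IsFractionRing.injective R K) (by rw [e, map_zero]))
  obtain ⟨n, h1, h2⟩ := h.val _ haK
  have hn : n ≤ 0 := by
    by_contra hn
    push Not at hn
    apply ha
    apply h.small
    show algebraMap R K a * π ^ (-1 : ℤ) ∈ O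
    obtain ⟨k, hk⟩ : ∃ k : ℕ, n = 1 + k := ⟨(n - 1).toNat, by omega⟩
    have : algebraMap R K a * π ^ (-1 : ℤ) = algebraMap R K a / π ^ n * π ^ k := by
      rw [hk, zpow_add₀ h.pi_ne, zpow_natCast, _root_.zpow_neg, zpow_one]
      have := h.pi_ne
      field_simp
    rw [this]
    exact mul_mem h1 (pow_mem h.pi_mem k)
  unfold Sz at *
  obtain ⟨k, hk⟩ : ∃ k : ℕ, n = -(k : ℤ) := ⟨(-n).toNat, by omega⟩
  have e : y * π ^ m = (algebraMap R K a * y * π ^ m) * π ^ k * (algebraMap R K a / π ^ n)⁻¹ := by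
    rw [hk, _root_.zpow_neg, zpow_natCast]
    have := h.pi_ne
    field_simp
  rw [e]
  exact mul_mem (mul_mem hy (pow_mem h.pi_mem k)) h2

end Rel

section Forms

variable {K : Type} [Field K]

/-- The form of degree `n` given by a polynomial. -/
noncomputable def hm (n : ℕ) (P : K[X]) (u w : K) : K :=
  ∑ i ∈ Finset.range (n + 1), P.coeff i * u ^ i * w ^ (n - i)

lemma hm_eq {n : ℕ} {P : K[X]} (hP : P.natDegree ≤ n) {u w : K} (hw : w ≠ 0) :
    hm n P u w = w ^ n * P.eval (u / w) := by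
  unfold hm
  rw [eval_eq_sum_range' (Nat.lt_succ_of_le hP), Finset.mul_sum]
  refine Finset.sum_congr rfl fun i hi => ?_
  have hi' : i ≤ n := by
    rw [Finset.mem_range] at hi
    omega
  obtain ⟨j, rfl⟩ := Nat.exists_eq_add_of_le hi'
  rw [Nat.add_sub_cancel_left, div_pow, pow_add]
  field_simp

/-- Numerator of the doubling formula. -/
def FF (a b c u w : K) : K :=
  u ^ 4 - 2 * b * u ^ 2 * w ^ 2 - 8 * c * u * w ^ 3 + (b ^ 2 - 4 * a * c) * w ^ 4

/-- Denominator of the doubling formula. -/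
def GG (a b c u w : K) : K := 4 * w * (u ^ 3 + a * u ^ 2 * w + b * u * w ^ 2 + c * w ^ 3)

/-- The part of `FF` divisible by `w`. -/
def SS (a b c u w : K) : K :=
  (-2 * b) * (u ^ 2 * w) + (-8 * c) * (u * w ^ 2) + (b ^ 2 - 4 * a * c) * w ^ 3

lemma FF_eq (a b c u w : K) : FF a b c u w = u ^ 4 + w * SS a b c u w := by
  unfold FF SS
  ring

lemma coprime (a b c : K) (h2 : (2 : K) ≠ 0)
    (hs : (X ^ 3 + C a * X ^ 2 + C b * X + C c : K[X]).Separable) :
    ∃ P Q : K[X], P * (X ^ 4 - C (2 * b) * X ^ 2 - C (8 * c) * X + C (b ^ 2 - 4 * a * c)) +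
      Q * (C 4 * (X ^ 3 + C a * X ^ 2 + C b * X + C c)) = 1 := by
  set f : K[X] := X ^ 3 + C a * X ^ 2 + C b * X + C c with hf
  have hd : derivative f = C 3 * X ^ 2 + C (2 * a) * X + C b := by
    rw [hf]
    simp only [derivative_add, derivative_mul, derivative_C, derivative_X_pow, derivative_X,
      map_mul, map_ofNat]
    push_cast
    simp only [map_ofNat]
    ring
  have e : (X ^ 4 - C (2 * b) * X ^ 2 - C (8 * c) * X + C (b ^ 2 - 4 * a * c) : K[X]) =
      (derivative f) ^ 2 + (-(C 8 * X + C (4 * a))) * f := by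
    rw [hd, hf]
    simp only [map_mul, map_sub, map_pow, map_ofNat]
    ring
  have h1 : IsCoprime ((derivative f) ^ 2 + (-(C 8 * X + C (4 * a))) * f) f := by
    have : IsCoprime ((derivative f) ^ 2) f := IsCoprime.pow_left (IsCoprime.symm hs)
    exact IsCoprime.add_mul_right_left this _
  obtain ⟨A, B, hAB⟩ := h1
  refine ⟨A, B * C (4⁻¹), ?_⟩
  rw [e]
  have h4 : (4 : K) ≠ 0 := by
    have : (4 : K) = 2 * 2 := by norm_num
    rw [this]
    exact mul_ne_zero h2 h2
  have : (C (4⁻¹ : K) * C 4 : K[X]) = 1 := by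
    rw [← C_mul, inv_mul_cancel₀ h4, C_1]
  calc _ = A * ((derivative f) ^ 2 + (-(C 8 * X + C (4 * a))) * f) +
        B * f * (C (4⁻¹ : K) * C 4) := by ring
    _ = 1 := by
      rw [this, mul_one]
      exact hAB

lemma forms (a b c : K) (h2 : (2 : K) ≠ 0)
    (hs : (X ^ 3 + C a * X ^ 2 + C b * X + C c : K[X]).Separable) :
    ∃ (n : ℕ) (P Q : K[X]), ∀ u w : K, w ≠ 0 →
      w ^ (n + 4) = hm n P u w * FF a b c u w + hm n Q u w * GG a b c u w := by
  obtain ⟨P, Q, h⟩ := coprime a b c h2 hs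
  refine ⟨max P.natDegree Q.natDegree, P, Q, fun u w hw => ?_⟩
  rw [hm_eq (le_max_left _ _) hw, hm_eq (le_max_right _ _) hw]
  have h1 := congrArg (fun p => p.eval (u / w)) h
  simp only [eval_add, eval_mul, eval_sub, eval_pow, eval_X, eval_C, eval_one] at h1
  have hF : FF a b c u w = w ^ 4 * ((u / w) ^ 4 - 2 * b * (u / w) ^ 2 - 8 * c * (u / w) +
      (b ^ 2 - 4 * a * c)) := by
    unfold FF
    field_simp
  have hG : GG a b c u w = w ^ 4 * (4 * ((u / w) ^ 3 + a * (u / w) ^ 2 + b * (u / w) + c)) := by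
    unfold GG
    field_simp
  rw [hF, hG]
  set n := max P.natDegree Q.natDegree
  calc w ^ (n + 4) = w ^ (n + 4) * 1 := (mul_one _).symm
    _ = _ := by
      rw [← h1]
      ring

end Forms


section Inf

variable {R : Type} [CommRing R] [IsDedekindDomain R] {K : Type} [Field K] [Algebra R K]
  [IsFractionRing R K] {O : ValuationSubring K} {π : K}

lemma hm_sz (h : GR R O π) (n : ℕ) (P : K[X]) : ∃ C : ℕ, ∀ (u w : K) (m : ℤ), Sz O π m u →
    Sz O π m w → Sz O π (n * m + C) (hm n P u w) := by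
  obtain ⟨C, hC⟩ := sz_bound h (Finset.range (n + 1)) P.coeff
  refine ⟨C, fun u w m hu hw => ?_⟩
  unfold hm
  refine sz_sum _ _ fun i hi => ?_
  have hi' : i ≤ n := by
    rw [Finset.mem_range] at hi
    omega
  obtain ⟨j, rfl⟩ := Nat.exists_eq_add_of_le hi'
  rw [Nat.add_sub_cancel_left]
  have e : (((i + j : ℕ) : ℤ) * m + C) = (C + i * m) + j * m := by
    push_cast
    ring
  rw [e]
  exact sz_mul h.pi_ne (sz_mul h.pi_ne (hC i hi) (sz_pow h.pi_ne hu i)) (sz_pow h.pi_ne hw j)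

lemma SS_sz (h : GR R O π) (a b c : K) : ∃ C : ℕ, ∀ (u w : K) (m : ℤ), Sz O π m u →
    Sz O π m w → Sz O π (3 * m + C) (SS a b c u w) := by
  obtain ⟨C1, h1⟩ := sz_exists h (-2 * b)
  obtain ⟨C2, h2⟩ := sz_exists h (-8 * c)
  obtain ⟨C3, h3⟩ := sz_exists h (b ^ 2 - 4 * a * c)
  refine ⟨C1 + C2 + C3, fun u w m hu hw => ?_⟩
  have e1 := sz_mul h.pi_ne h1 (sz_mul h.pi_ne (sz_pow h.pi_ne hu 2) hw)
  have e2 := sz_mul h.pi_ne h2 (sz_mul h.pi_ne hu (sz_pow h.pi_ne hw 2))
  have e3 := sz_mul h.pi_ne h3 (sz_pow h.pi_ne hw 3)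
  unfold SS
  push_cast at e1 e2 e3 ⊢
  refine sz_add (sz_add ?_ ?_) ?_
  · exact sz_mono h.pi_ne h.pi_mem (by omega) e1
  · exact sz_mono h.pi_ne h.pi_mem (by omega) e2
  · exact sz_mono h.pi_ne h.pi_mem (by omega) e3

lemma inf_step (h : GR R O π) (a b c : K)
    (hs : (X ^ 3 + C a * X ^ 2 + C b * X + C c : K[X]).Separable) :
    ∃ C : ℕ, ∀ (u w : K) (m : ℤ), w ≠ 0 → Sz O π m u → Sz O π m w →
      Sz O π (4 * m - C) (FF a b c u w) → Sz O π (4 * m - C) (GG a b c u w) →
      Sz O π (m - 1) u ∧ Sz O π (m - 1) w := by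
  obtain ⟨n, P, Q, hPQ⟩ := forms a b c h.two hs
  obtain ⟨C1, h1⟩ := hm_sz h n P
  obtain ⟨C2, h2⟩ := hm_sz h n Q
  obtain ⟨C3, h3⟩ := SS_sz h a b c
  refine ⟨C1 + C2 + (n + 4) * (C3 + 4), fun u w m hw0 hu hw hF hG => ?_⟩
  have e1 : Sz O π (((n + 4 : ℕ) : ℤ) * (m - C3 - 4)) (w ^ (n + 4)) := by
    rw [hPQ u w hw0]
    refine sz_add ?_ ?_
    · refine sz_mono h.pi_ne h.pi_mem ?_ (sz_mul h.pi_ne (h1 u w m hu hw) hF)
      push_cast
      nlinarith
    · refine sz_mono h.pi_ne h.pi_mem ?_ (sz_mul h.pi_ne (h2 u w m hu hw) hG)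
      push_cast
      nlinarith
  have e2 : Sz O π (m - C3 - 4) w := sz_root (by omega) e1
  have e3 : Sz O π (((4 : ℕ) : ℤ) * (m - 1)) (u ^ 4) := by
    have : u ^ 4 = FF a b c u w - w * SS a b c u w := by
      rw [FF_eq]
      ring
    rw [this]
    refine sz_sub ?_ ?_
    · refine sz_mono h.pi_ne h.pi_mem ?_ hF
      push_cast
      nlinarith
    · refine sz_mono h.pi_ne h.pi_mem ?_ (sz_mul h.pi_ne e2 (h3 u w m hu hw))
      push_cast
      omega
  exact ⟨sz_root (by omega) e3, sz_mono h.pi_ne h.pi_mem (by omega) e2⟩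

lemma inf_all (h : GR R O π) (a b c : K)
    (hs : (X ^ 3 + C a * X ^ 2 + C b * X + C c : K[X]).Separable) :
    ∃ C : ℕ, ∀ (u w : K) (k m' : ℤ), w ≠ 0 → k + C ≤ 4 * m' →
      Sz O π k (FF a b c u w) → Sz O π k (GG a b c u w) → Sz O π m' u ∧ Sz O π m' w := by
  obtain ⟨C, hC⟩ := inf_step h a b c hs
  refine ⟨C, fun u w k m' hw0 hk hF hG => ?_⟩
  have key : ∀ j : ℕ, Sz O π (m' + j) u → Sz O π (m' + j) w → Sz O π m' u ∧ Sz O π m' w := by
    intro j
    induction j with
    | zero =>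
      intro h1 h2
      simpa using And.intro h1 h2
    | succ j ih =>
      intro h1 h2
      have := hC u w (m' + (j + 1 : ℕ)) hw0 h1 h2
        (sz_mono h.pi_ne h.pi_mem (by push_cast; omega) hF)
        (sz_mono h.pi_ne h.pi_mem (by push_cast; omega) hG)
      push_cast at this
      have e : m' + ((j : ℤ) + 1) - 1 = m' + j := by ring
      rw [e] at this
      exact ih this.1 this.2
  obtain ⟨m1, h1⟩ := sz_exists h u
  obtain ⟨m2, h2⟩ := sz_exists h w
  refine key ((m1 : ℤ) + m2 - m').toNat ?_ ?_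
  · exact sz_mono h.pi_ne h.pi_mem (by omega) h1
  · exact sz_mono h.pi_ne h.pi_mem (by omega) h2

end Inf

section Fin

variable {R : Type} [CommRing R] [IsDedekindDomain R] {K : Type} [Field K] [Algebra R K]
  [IsFractionRing R K] {O : ValuationSubring K} {π : K}

/-- Representations whose ideal is bounded. -/
lemma good (h : GR R O π) : ∃ e : ℕ, ∀ x : K, ∃ u w δ α β : R, w ≠ 0 ∧ δ ≠ 0 ∧
    x * algebraMap R K w = algebraMap R K u ∧ δ = α * u + β * w ∧
    Sz O π e (algebraMap R K δ) := by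
  classical
  have := h.cl
  have hsurj := ClassGroup.mk0_surjective (R := R)
  choose rep hrep using hsurj
  have hne : ∀ c : ClassGroup R, ∃ d : R, d ∈ (rep c : Ideal R) ∧ d ≠ 0 := by
    intro c
    have h0 : (rep c : Ideal R) ≠ ⊥ := by
      have := nonZeroDivisors.ne_zero (rep c).2
      simpa using this
    obtain ⟨d, hd, hd0⟩ := Submodule.exists_mem_ne_zero_of_ne_bot h0
    exact ⟨d, hd, hd0⟩
  choose dd hdd hdd0 using hne
  have := Fintype.ofFinite (ClassGroup R)
  choose g hg using fun c => sz_exists h (algebraMap R K (dd c))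
  refine ⟨Finset.univ.sup g, fun x => ?_⟩
  obtain ⟨u, w, hw, hx⟩ := IsFractionRing.div_surjective (A := R) x
  have hw0 : w ≠ 0 := nonZeroDivisors.ne_zero hw
  set J : Ideal R := Ideal.span {u, w} with hJ
  have hJ0 : J ≠ ⊥ := by
    intro e
    apply hw0
    have : w ∈ J := Ideal.subset_span (by simp)
    rw [e] at this
    simpa using this
  have hJm : J ∈ nonZeroDivisors (Ideal R) := mem_nonZeroDivisors_of_ne_zero (by simpa using hJ0)
  set c : ClassGroup R := ClassGroup.mk0 ⟨J, hJm⟩ with hc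
  have hcc : ClassGroup.mk0 ⟨J, hJm⟩ = ClassGroup.mk0 (rep c) := by
    rw [hrep c]
  obtain ⟨r, s, hr, hs, hrs⟩ := (ClassGroup.mk0_eq_mk0_iff).1 hcc
  have hrs' : Ideal.span {r} * J = Ideal.span {s} * (rep c : Ideal R) := hrs
  have hmem : ∀ z ∈ J, ∃ z' ∈ (rep c : Ideal R), r * z = s * z' := by
    intro z hz
    have h1 : r * z ∈ Ideal.span {r} * J :=
      Ideal.mul_mem_mul (Ideal.mem_span_singleton_self r) hz
    rw [hrs', Ideal.mem_span_singleton_mul] at h1
    obtain ⟨z', hz', e⟩ := h1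
    exact ⟨z', hz', e.symm⟩
  obtain ⟨u', hu', eu⟩ := hmem u (Ideal.subset_span (by simp))
  obtain ⟨w', hw', ew⟩ := hmem w (Ideal.subset_span (by simp))
  have hsd : s * dd c ∈ Ideal.span {r} * J := by
    rw [hrs']
    exact Ideal.mul_mem_mul (Ideal.mem_span_singleton_self s) (hdd c)
  rw [Ideal.mem_span_singleton_mul] at hsd
  obtain ⟨z, hz, ez⟩ := hsd
  rw [hJ, Ideal.mem_span_pair] at hz
  obtain ⟨α, β, hαβ⟩ := hz
  refine ⟨u', w', dd c, α, β, ?_, hdd0 c, ?_, ?_, ?_⟩
  · intro e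
    rw [e, mul_zero] at ew
    exact (mul_ne_zero hr hw0) ew
  · have hwK : algebraMap R K w ≠ 0 := by
      intro e
      exact hw0 ((IsFractionRing.injective R K) (by rw [e, map_zero]))
    have hsK : algebraMap R K s ≠ 0 := by
      intro e
      exact hs ((IsFractionRing.injective R K) (by rw [e, map_zero]))
    have e1 := congrArg (algebraMap R K) eu
    have e2 := congrArg (algebraMap R K) ew
    simp only [map_mul] at e1 e2
    apply mul_left_cancel₀ hsK
    rw [← e1, ← hx]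
    have : algebraMap R K s * (algebraMap R K u / algebraMap R K w * algebraMap R K w') =
        algebraMap R K u / algebraMap R K w * (algebraMap R K s * algebraMap R K w') := by ring
    rw [this, ← e2]
    field_simp
  · apply mul_left_cancel₀ hs
    rw [← ez, ← hαβ]
    calc r * (α * u + β * w) = α * (r * u) + β * (r * w) := by ring
      _ = s * (α * u' + β * w') := by
        rw [eu, ew]
        ring
  · refine sz_mono h.pi_ne h.pi_mem ?_ (hg c)
    exact_mod_cast Finset.le_sup (f := g) (Finset.mem_univ c)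


/-- The elements of `K` which are in `R`. -/
def In (R : Type) [CommRing R] {K : Type} [Field K] [Algebra R K] (x : K) : Prop :=
  x ∈ (algebraMap R K).range

omit [IsDedekindDomain R] [IsFractionRing R K] in
lemma in_mk (r : R) : In R (algebraMap R K r) := ⟨r, rfl⟩

lemma denom (a b c : K) (n : ℕ) (P Q : K[X]) : ∃ D : R, D ≠ 0 ∧
    (∀ u w : R, In R (algebraMap R K D * hm n P (algebraMap R K u) (algebraMap R K w))) ∧
    (∀ u w : R, In R (algebraMap R K D * hm n Q (algebraMap R K u) (algebraMap R K w))) ∧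
    (∀ u w : R, In R (algebraMap R K D * SS a b c (algebraMap R K u) (algebraMap R K w))) ∧
    (∀ u w : R, In R (algebraMap R K D * FF a b c (algebraMap R K u) (algebraMap R K w))) ∧
    ∀ u w : R, In R (algebraMap R K D * GG a b c (algebraMap R K u) (algebraMap R K w)) := by
  classical
  obtain ⟨D, hD⟩ := IsLocalization.exist_integer_multiples_of_finset (nonZeroDivisors R)
    ((Finset.range (n + 1)).image P.coeff ∪ (Finset.range (n + 1)).image Q.coeff ∪
      {-2 * b, -8 * c, b ^ 2 - 4 * a * c, a, b, c} : Finset K)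
  have hin : ∀ z ∈ ((Finset.range (n + 1)).image P.coeff ∪ (Finset.range (n + 1)).image Q.coeff ∪
      {-2 * b, -8 * c, b ^ 2 - 4 * a * c, a, b, c} : Finset K),
      algebraMap R K (D : R) * z ∈ (algebraMap R K).range := by
    intro z hz
    obtain ⟨y, hy⟩ := hD z hz
    refine ⟨y, ?_⟩
    rw [hy, Algebra.smul_def]
  have hal : ∀ u : R, algebraMap R K u ∈ (algebraMap R K).range := fun u => ⟨u, rfl⟩
  have hS : ∀ u w : R, algebraMap R K D * SS a b c (algebraMap R K u) (algebraMap R K w) ∈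
      (algebraMap R K).range := by
    intro u w
    have : algebraMap R K (D : R) * SS a b c (algebraMap R K u) (algebraMap R K w) =
        (algebraMap R K (D : R) * (-2 * b)) *
          ((algebraMap R K u) ^ 2 * algebraMap R K w) +
        (algebraMap R K (D : R) * (-8 * c)) *
          (algebraMap R K u * (algebraMap R K w) ^ 2) +
        (algebraMap R K (D : R) * (b ^ 2 - 4 * a * c)) * (algebraMap R K w) ^ 3 := by
      unfold SS
      ring
    rw [this]
    refine add_mem (add_mem ?_ ?_) ?_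
    · exact mul_mem (hin _ (by simp)) (mul_mem (pow_mem (hal u) 2) (hal w))
    · exact mul_mem (hin _ (by simp)) (mul_mem (hal u) (pow_mem (hal w) 2))
    · exact mul_mem (hin _ (by simp)) (pow_mem (hal w) 3)
  refine ⟨D, nonZeroDivisors.ne_zero D.2, ?_, ?_, hS, ?_, ?_⟩
  · intro u w
    unfold hm In
    rw [Finset.mul_sum]
    refine sum_mem fun i hi => ?_
    have : algebraMap R K (D : R) * (P.coeff i * (algebraMap R K u) ^ i *
        (algebraMap R K w) ^ (n - i)) = (algebraMap R K (D : R) * P.coeff i) *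
        ((algebraMap R K u) ^ i * (algebraMap R K w) ^ (n - i)) := by ring
    rw [this]
    refine mul_mem (hin _ ?_) (mul_mem (pow_mem (hal u) _) (pow_mem (hal w) _))
    simp only [Finset.mem_union, Finset.mem_image]
    exact Or.inl (Or.inl ⟨i, hi, rfl⟩)
  · intro u w
    unfold hm In
    rw [Finset.mul_sum]
    refine sum_mem fun i hi => ?_
    have : algebraMap R K (D : R) * (Q.coeff i * (algebraMap R K u) ^ i *
        (algebraMap R K w) ^ (n - i)) = (algebraMap R K (D : R) * Q.coeff i) *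
        ((algebraMap R K u) ^ i * (algebraMap R K w) ^ (n - i)) := by ring
    rw [this]
    refine mul_mem (hin _ ?_) (mul_mem (pow_mem (hal u) _) (pow_mem (hal w) _))
    simp only [Finset.mem_union, Finset.mem_image]
    exact Or.inl (Or.inr ⟨i, hi, rfl⟩)
  · intro u w
    have : algebraMap R K (D : R) * FF a b c (algebraMap R K u) (algebraMap R K w) =
        algebraMap R K (D : R) * (algebraMap R K u) ^ 4 +
        algebraMap R K w * (algebraMap R K (D : R) *
          SS a b c (algebraMap R K u) (algebraMap R K w)) := by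
      rw [FF_eq]
      ring
    rw [this]
    exact add_mem (mul_mem (hal _) (pow_mem (hal u) 4)) (mul_mem (hal w) (hS u w))
  · intro u w
    have : algebraMap R K (D : R) * GG a b c (algebraMap R K u) (algebraMap R K w) =
        (4 : ℕ) * algebraMap R K w * (algebraMap R K (D : R) * (algebraMap R K u) ^ 3 +
        (algebraMap R K (D : R) * a) * ((algebraMap R K u) ^ 2 * algebraMap R K w) +
        (algebraMap R K (D : R) * b) * (algebraMap R K u * (algebraMap R K w) ^ 2) +
        (algebraMap R K (D : R) * c) * (algebraMap R K w) ^ 3) := by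
      unfold GG
      push_cast
      ring
    rw [this]
    refine mul_mem (mul_mem (natCast_mem _ _) (hal w)) (add_mem (add_mem (add_mem ?_ ?_) ?_) ?_)
    · exact mul_mem (hal _) (pow_mem (hal u) 3)
    · exact mul_mem (hin _ (by simp)) (mul_mem (pow_mem (hal u) 2) (hal w))
    · exact mul_mem (hin _ (by simp)) (mul_mem (hal u) (pow_mem (hal w) 2))
    · exact mul_mem (hin _ (by simp)) (pow_mem (hal w) 3)

lemma ideal_mem (a b c : K) (h2 : (2 : K) ≠ 0)
    (hs : (X ^ 3 + C a * X ^ 2 + C b * X + C c : K[X]).Separable) :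
    ∃ (D : R) (N : ℕ), D ≠ 0 ∧ ∀ u w δ α β : R, w ≠ 0 → δ = α * u + β * w →
      ∃ A B : R, algebraMap R K ((D * δ) ^ N) =
        algebraMap R K A * (algebraMap R K D *
          FF a b c (algebraMap R K u) (algebraMap R K w)) +
        algebraMap R K B * (algebraMap R K D *
          GG a b c (algebraMap R K u) (algebraMap R K w)) := by
  obtain ⟨n, P, Q, hPQ⟩ := forms a b c h2 hs
  obtain ⟨D, hD0, hP, hQ, hS, hF, hG⟩ := denom (R := R) a b c n P Q
  refine ⟨D, 5 * (n + 4), hD0, fun u w δ α β hw hδ => ?_⟩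
  have hinj := IsFractionRing.injective R K
  have hwK : algebraMap R K w ≠ 0 := by
    intro e
    exact hw (hinj (by rw [e, map_zero]))
  obtain ⟨p, hp⟩ := hP u w
  obtain ⟨q, hq⟩ := hQ u w
  obtain ⟨s, hs'⟩ := hS u w
  obtain ⟨f, hf⟩ := hF u w
  obtain ⟨g, hg⟩ := hG u w
  set I : Ideal R := Ideal.span {f, g} with hI
  have hfI : f ∈ I := Ideal.subset_span (by simp)
  have hgI : g ∈ I := Ideal.subset_span (by simp)
  have e1 : D ^ 2 * w ^ (n + 4) = p * f + q * g := by
    apply hinj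
    simp only [map_add, map_mul, map_pow]
    rw [hp, hq, hf, hg, hPQ _ _ hwK]
    ring
  have e2 : D * u ^ 4 = f - w * s := by
    apply hinj
    simp only [map_sub, map_mul, map_pow]
    rw [hf, hs', FF_eq]
    ring
  have m1 : (D * w) ^ (n + 4) ∈ I := by
    have : (D * w) ^ (n + 4) = D ^ (n + 2) * (p * f + q * g) := by
      rw [← e1]
      ring
    rw [this]
    exact I.mul_mem_left _ (add_mem (I.mul_mem_left _ hfI) (I.mul_mem_left _ hgI))
  have m2 : ((D * u) ^ 4) ^ (n + 4) ∈ I := by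
    have : (D * u) ^ 4 = D ^ 3 * f + (-(D ^ 2 * s)) * (D * w) := by
      calc (D * u) ^ 4 = D ^ 3 * (D * u ^ 4) := by ring
        _ = _ := by
          rw [e2]
          ring
    rw [this]
    refine I.add_pow_mem_of_pow_mem_of_le (m := 1) (n := n + 4) ?_ ?_ (by omega)
    · rw [pow_one]
      exact I.mul_mem_left _ hfI
    · rw [mul_pow]
      exact I.mul_mem_left _ m1
  have m3 : (D * δ) ^ (5 * (n + 4)) ∈ I := by
    have : D * δ = α * (D * u) + β * (D * w) := by
      rw [hδ]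
      ring
    rw [this]
    refine I.add_pow_mem_of_pow_mem_of_le (m := 4 * (n + 4)) (n := n + 4) ?_ ?_ (by omega)
    · rw [mul_pow, pow_mul (D * u)]
      exact I.mul_mem_left _ m2
    · rw [mul_pow]
      exact I.mul_mem_left _ m1
  rw [hI, Ideal.mem_span_pair] at m3
  obtain ⟨A, B, hAB⟩ := m3
  refine ⟨A, B, ?_⟩
  rw [← hAB, map_add, map_mul, map_mul, hf, hg]

/-- `x` is a quotient of elements of size at most `k`. -/
def Rep (R : Type) [CommRing R] {K : Type} [Field K] [Algebra R K] (O : ValuationSubring K)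
    (π : K) (k : ℕ) (x : K) : Prop :=
  ∃ u w : R, w ≠ 0 ∧ Sz O π k (algebraMap R K u) ∧ Sz O π k (algebraMap R K w) ∧
    x * algebraMap R K w = algebraMap R K u

lemma rep_step (h : GR R O π) (a b c : K)
    (hs : (X ^ 3 + C a * X ^ 2 + C b * X + C c : K[X]).Separable) :
    ∃ C : ℕ, ∀ (x x' : K) (k : ℕ), Rep R O π k x →
      4 * (x' ^ 3 + a * x' ^ 2 + b * x' + c) * x =
        x' ^ 4 - 2 * b * x' ^ 2 - 8 * c * x' + (b ^ 2 - 4 * a * c) →
      Rep R O π (k / 4 + C) x' := by
  obtain ⟨e, he⟩ := good h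
  obtain ⟨D, N, hD0, hDN⟩ := ideal_mem (R := R) a b c h.two hs
  obtain ⟨C1, hC1⟩ := inf_all h a b c hs
  obtain ⟨eD, heD⟩ := sz_exists h (algebraMap R K D)
  refine ⟨N * (eD + e) + C1 + 1, fun x x' k hx hxx => ?_⟩
  obtain ⟨r, s, hs0, hr, hs', hrs⟩ := hx
  obtain ⟨u, w, δ, α, β, hw, hδ0, hxw, hδ, hδe⟩ := he x'
  obtain ⟨A, B, hAB⟩ := hDN u w δ α β hw hδ
  have hinj := IsFractionRing.injective R K
  have hne : ∀ z : R, z ≠ 0 → algebraMap R K z ≠ 0 := fun z hz e => hz (hinj (by rw [e, map_zero]))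
  set U := algebraMap R K u
  set W := algebraMap R K w
  have hW : W ≠ 0 := hne w hw
  have hF : FF a b c U W = W ^ 4 *
      (x' ^ 4 - 2 * b * x' ^ 2 - 8 * c * x' + (b ^ 2 - 4 * a * c)) := by
    rw [← hxw]
    unfold FF
    ring
  have hG : GG a b c U W = W ^ 4 * (4 * (x' ^ 3 + a * x' ^ 2 + b * x' + c)) := by
    rw [← hxw]
    unfold GG
    ring
  have hrG : algebraMap R K r * GG a b c U W = algebraMap R K s * FF a b c U W := by
    rw [hF, hG, ← hxx, ← hrs]
    ring
  have hΔ : Sz O π (N * (eD + e)) (algebraMap R K ((D * δ) ^ N)) := by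
    rw [map_pow, map_mul]
    exact sz_pow h.pi_ne (sz_mul h.pi_ne heD hδe) N
  have hΔ0 : (D * δ) ^ N ≠ 0 := pow_ne_zero _ (mul_ne_zero hD0 hδ0)
  have e1 : algebraMap R K s * algebraMap R K ((D * δ) ^ N) =
      algebraMap R K (A * r + B * s) * (algebraMap R K D * GG a b c U W) := by
    rw [hAB, map_add, map_mul, map_mul]
    calc _ = algebraMap R K A * algebraMap R K D * (algebraMap R K s * FF a b c U W) +
        algebraMap R K B * algebraMap R K s * (algebraMap R K D * GG a b c U W) := by ring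
      _ = _ := by
        rw [← hrG]
        ring
  have e2 : algebraMap R K r * algebraMap R K ((D * δ) ^ N) =
      algebraMap R K (A * r + B * s) * (algebraMap R K D * FF a b c U W) := by
    rw [hAB, map_add, map_mul, map_mul]
    calc _ = algebraMap R K A * algebraMap R K r * (algebraMap R K D * FF a b c U W) +
        algebraMap R K B * algebraMap R K D * (algebraMap R K r * GG a b c U W) := by ring
      _ = _ := by
        rw [hrG]
        ring
  have hρ : A * r + B * s ≠ 0 := by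
    intro e0
    rw [e0, map_zero, zero_mul] at e1
    exact (mul_ne_zero (hne s hs0) (hne _ hΔ0)) e1
  have sG : Sz O π (k + N * (eD + e)) (GG a b c U W) := by
    refine sz_cancel h hD0 (sz_cancel h hρ ?_)
    rw [← e1]
    exact sz_mul h.pi_ne hs' hΔ
  have sF : Sz O π (k + N * (eD + e)) (FF a b c U W) := by
    refine sz_cancel h hD0 (sz_cancel h hρ ?_)
    rw [← e2]
    exact sz_mul h.pi_ne hr hΔ
  have hfin := hC1 U W (k + N * (eD + e)) ((k / 4 + (N * (eD + e) + C1 + 1) : ℕ) : ℤ) hW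
    (by
      have h1 : (k : ℤ) ≤ 4 * ((k / 4 : ℕ) : ℤ) + 3 := by omega
      have h3 : (0 : ℤ) ≤ (N : ℤ) * (eD + e) := by positivity
      push_cast
      push_cast at h1
      linarith) sF sG
  exact ⟨u, w, hw, hfin.1, hfin.2, hxw⟩

lemma rep_mono (h : GR R O π) {k l : ℕ} (hkl : k ≤ l) {x : K} (hx : Rep R O π k x) :
    Rep R O π l x := by
  obtain ⟨u, w, hw, h1, h2, h3⟩ := hx
  exact ⟨u, w, hw, sz_mono h.pi_ne h.pi_mem (by exact_mod_cast hkl) h1,
    sz_mono h.pi_ne h.pi_mem (by exact_mod_cast hkl) h2, h3⟩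

lemma rep_exists (h : GR R O π) (x : K) : ∃ k : ℕ, Rep R O π k x := by
  obtain ⟨u, w, hw, hx⟩ := IsFractionRing.div_surjective (A := R) x
  have hw0 : w ≠ 0 := nonZeroDivisors.ne_zero hw
  obtain ⟨m, hm⟩ := sz_exists h (algebraMap R K u)
  obtain ⟨n, hn⟩ := sz_exists h (algebraMap R K w)
  have hwK : algebraMap R K w ≠ 0 := by
    intro e
    exact hw0 ((IsFractionRing.injective R K) (by rw [e, map_zero]))
  refine ⟨m + n, u, w, hw0, sz_mono h.pi_ne h.pi_mem (by push_cast; omega) hm,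
    sz_mono h.pi_ne h.pi_mem (by push_cast; omega) hn, ?_⟩
  rw [← hx]
  field_simp

lemma rep_finite (hL : ∀ m : ℤ, (Lm R O π m).Finite) (k : ℕ) : {x : K | Rep R O π k x}.Finite := by
  refine Set.Finite.subset (((hL k).prod (hL k)).image
    fun p : R × R => algebraMap R K p.1 / algebraMap R K p.2) ?_
  rintro x ⟨u, w, hw, h1, h2, h3⟩
  refine ⟨(u, w), ⟨h1, h2⟩, ?_⟩
  have hwK : algebraMap R K w ≠ 0 := by
    intro e
    exact hw ((IsFractionRing.injective R K) (by rw [e, map_zero]))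
  show algebraMap R K u / algebraMap R K w = x
  rw [← h3]
  field_simp

end Fin

end Pool.T1.FINK43

namespace Pool.T1

open Polynomial FINK43

theorem fink : FINKStmt := by
  intro R _ _ K _ _ _ O π h hL _ a b c hsep hdiv
  obtain ⟨C, hC⟩ := rep_step h a b c hsep
  obtain ⟨P, Q, hPQ⟩ := coprime a b c h.two hsep
  have hne : ∀ x x' : K, 4 * (x' ^ 3 + a * x' ^ 2 + b * x' + c) * x =
      x' ^ 4 - 2 * b * x' ^ 2 - 8 * c * x' + (b ^ 2 - 4 * a * c) →
      4 * (x' ^ 3 + a * x' ^ 2 + b * x' + c) ≠ 0 := by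
    intro x x' hx h0
    rw [h0, zero_mul] at hx
    have h1 := congrArg (fun p => p.eval x') hPQ
    simp only [eval_add, eval_mul, eval_sub, eval_pow, eval_X, eval_C, eval_one] at h1
    rw [← hx, h0] at h1
    simp at h1
  set S : Set K := {x | ∃ y, y ^ 2 = x ^ 3 + a * x ^ 2 + b * x + c} with hS
  have hφ : ∀ x ∈ S, ∃ x' ∈ S, 4 * (x' ^ 3 + a * x' ^ 2 + b * x' + c) * x =
      x' ^ 4 - 2 * b * x' ^ 2 - 8 * c * x' + (b ^ 2 - 4 * a * c) := by
    rintro x ⟨y, hy⟩
    obtain ⟨x', y', h1, h2⟩ := hdiv x y hy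
    refine ⟨x', ⟨y', h1⟩, ?_⟩
    rw [← h1, h2]
    ring
  choose! φ hφS hφe using hφ
  have hinj : Set.InjOn φ S := by
    intro x hx z hz e
    have h1 := hφe x hx
    have h2 := hφe z hz
    rw [← e] at h2
    exact mul_left_cancel₀ (hne x _ h1) (h1.trans h2.symm)
  have hfin : ∀ k : ℕ, {x ∈ S | Rep R O π k x}.Finite := fun k =>
    (rep_finite hL k).subset fun x hx => hx.2
  have hdbl : ∀ k : ℕ, 2 * C ≤ k → {x ∈ S | Rep R O π (2 * k) x} ⊆ {x ∈ S | Rep R O π k x} := by
    intro k hk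
    have hsub : {x ∈ S | Rep R O π k x} ⊆ {x ∈ S | Rep R O π (2 * k) x} := fun x hx =>
      ⟨hx.1, rep_mono h (by omega) hx.2⟩
    have hmaps : φ '' {x ∈ S | Rep R O π (2 * k) x} ⊆ {x ∈ S | Rep R O π k x} := by
      rintro _ ⟨x, hx, rfl⟩
      refine ⟨hφS x hx.1, rep_mono h ?_ (hC x (φ x) (2 * k) hx.2 (hφe x hx.1))⟩
      omega
    have hcard : {x ∈ S | Rep R O π (2 * k) x}.ncard ≤ {x ∈ S | Rep R O π k x}.ncard := by
      rw [← Set.ncard_image_of_injOn (hinj.mono fun x hx => hx.1)]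
      exact Set.ncard_le_ncard hmaps (hfin k)
    exact (Set.eq_of_subset_of_ncard_le hsub hcard (hfin _)).symm.subset
  have hall : S ⊆ {x ∈ S | Rep R O π (2 * C + 1) x} := by
    have hpow : ∀ j : ℕ, {x ∈ S | Rep R O π (2 ^ j * (2 * C + 1)) x} ⊆
        {x ∈ S | Rep R O π (2 * C + 1) x} := by
      intro j
      induction j with
      | zero => simp
      | succ j ih =>
        refine subset_trans ?_ ih
        have := hdbl (2 ^ j * (2 * C + 1)) (by
          have : 1 ≤ 2 ^ j := Nat.one_le_two_pow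
          nlinarith)
        rw [← mul_assoc, ← pow_succ'] at this
        exact this
    intro x hx
    obtain ⟨k, hk⟩ := rep_exists h x
    refine hpow k ⟨hx, rep_mono h ?_ hk⟩
    have : k < 2 ^ k := Nat.lt_two_pow_self
    nlinarith
  have hSfin : S.Finite := (hfin _).subset hall
  have hsq : ∀ z : K, {y : K | y ^ 2 = z}.Finite := by
    intro z
    by_cases hz : ∃ y0 : K, y0 ^ 2 = z
    · obtain ⟨y0, rfl⟩ := hz
      refine Set.Finite.subset (Set.toFinite {y0, -y0}) ?_
      intro y hy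
      have hy' : y ^ 2 = y0 ^ 2 := hy
      rcases sq_eq_sq_iff_eq_or_eq_neg.1 hy' with e | e
      · exact Or.inl e
      · exact Or.inr e
    · refine Set.Finite.subset Set.finite_empty ?_
      intro y hy
      exact (hz ⟨y, hy⟩).elim
  have hY : (⋃ x ∈ S, {y : K | y ^ 2 = x ^ 3 + a * x ^ 2 + b * x + c}).Finite :=
    hSfin.biUnion fun x _ => hsq _
  refine (hSfin.prod hY).subset ?_
  rintro ⟨x, y⟩ hxy
  have hxy' : y ^ 2 = x ^ 3 + a * x ^ 2 + b * x + c := hxy
  refine ⟨⟨y, hxy'⟩, ?_⟩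
  simp only [Set.mem_iUnion]
  exact ⟨x, ⟨y, hxy'⟩, hxy'⟩

end Pool.T1
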